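import Mathlib
import Pool.Agent.Jac70.Div

/-!
# The number of the automorphisms of a Jacobi diagram divides its integral class

`A H` is the part of degree `d` of the integral space of Jacobi diagrams on the circle, for a set
`H` with `6 d` elements (the half-edges of the union of the circle and of the graph). The definitions
are in `Pool.Agent.Jac70.Defs`.
-/

set_option autoImplicit false

namespace Pool.Agent.Results.MP_5b4dc9_gt.AutomorphismsDivide

open Pool.Agent.Jac70

/-- The number of the automorphisms of a Jacobi diagram `D` on the circle which fix the circle is a
power of two, and the class of `D` in the integral space of Jacobi diagrams is divisible by this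
number; an automorphism may reverse the cyclic orders at the vertices outside the circle. -/
theorem result (H : Type) [Fintype H] [DecidableEq H] (D : JD H) :
    ∃ (k : ℕ) (a : A H), Nat.card {φ : Equiv.Perm H // Aut D φ ∧ ∀ h ∈ D.K, φ h = h} = 2 ^ k ∧
      D.cl = 2 ^ k • a := by
  obtain ⟨k, a, h1, h2⟩ := div_cAut D
  refine ⟨k, a, h1, ?_⟩
  rw [h2, h1]

end Pool.Agent.Results.MP_5b4dc9_gt.AutomorphismsDivide
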