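import Mathlib
import Pool.Agent.Jac70.Fix

/-!
# A Jacobi diagram with an odd automorphism is zero over the integers

`A H` is the part of degree `d` of the integral space of Jacobi diagrams on the circle, for a set
`H` with `6 d` elements (the half-edges of the union of the circle and of the graph). The definitions
are in `Pool.Agent.Jac70.Defs`.
-/

set_option autoImplicit false

namespace Pool.Agent.Results.MP_5b4dc9_gt.OddAutomorphism

open Pool.Agent.Jac70

/-- Let `φ` be an automorphism of a Jacobi diagram `D` on the circle which preserves the circle with
its orientation, but not necessarily the cyclic orders at the other vertices. If `φ` reverses an odd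
number of cyclic orders, then the class of `D` is zero. -/
theorem result (H : Type) [Fintype H] [DecidableEq H] (D : JD H) (φ : Equiv.Perm H)
    (hφ : Aut D φ) (hodd : Odd (rev D φ).card) : D.cl = 0 :=
  odd_zero hφ hodd

end Pool.Agent.Results.MP_5b4dc9_gt.OddAutomorphism
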