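import Mathlib
import Pool.Agent.Jac70.Defs
import Pool.Agent.Rev67.Defs
import Pool.Agent.Rev67.Main

/-!
# Integral chord diagrams detect the orientation of the circle, modulo three
-/

set_option autoImplicit false

namespace Pool.Agent.Results.MP_5b4dc9_gt.OrientationModThree

open Pool.Agent.Jac70

/-- In every degree `n ≥ 67` there is a chord diagram `C` such that the difference of `C` and of the
same chord diagram with the opposite orientation of the circle is not divisible by three in the
integral space of Jacobi diagrams on the circle. -/
theorem result (n : ℕ) (hn : 67 ≤ n) :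
    ∃ C : JD (Fin (6 * n)), (∀ h, ¬ C.inner h) ∧
      ∀ a : A (Fin (6 * n)), C.cl - (Pool.Agent.Rev67.rev C).cl ≠ 3 • a :=
  Pool.Agent.Rev67.main_chord n hn

end Pool.Agent.Results.MP_5b4dc9_gt.OrientationModThree
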