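import Mathlib
import Pool.Agent.Jac70.Defs
import Pool.Agent.SWL73.End

/-!
# The integral space of Jacobi diagrams on the circle is not torsion free

`A H` is the part of degree `d` of the integral space of Jacobi diagrams on the circle, for a set
`H` with `6 d` elements (the half-edges of the union of the circle and of the graph). The definitions
are in `Pool.Agent.Jac70.Defs`. Here `H = Fin 72`, so the degree is `12`.
-/

set_option autoImplicit false

namespace Pool.Agent.Results.MP_5b4dc9_gt.ThreeTorsion

open Pool.Agent.Jac70

/-- The part of degree twelve of the integral space of Jacobi diagrams on the circle contains a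
nonzero element which is killed by three: the space is not torsion free. -/
theorem result : ∃ y : A (Fin 72), y ≠ 0 ∧ (3 : ℤ) • y = 0 :=
  Pool.Agent.SWL73.three_torsion

end Pool.Agent.Results.MP_5b4dc9_gt.ThreeTorsion
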